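import Pool.Agent.Helper28.TK.StK

/-!
# Project TK, module KRT: coefficients at multiples of `p`
-/

set_option autoImplicit false

namespace Pool.Agent.Helper68.TK

open Pool.Agent.Helper28.TK Pool.Agent.Helper14.WK
open Filter Topology

/-- A power series which is constant on the punctured unit disc is constant. -/
private lemma coeff_zero_of_const (c : ℕ → ℂ) (k : ℂ)
    (h : ∀ q : ℂ, q ≠ 0 → ‖q‖ < 1 → HasSum (fun m : ℕ => c m * q ^ m) k) :
    ∀ m : ℕ, m ≠ 0 → c m = 0 := by
  intro m hm
  set p : FormalMultilinearSeries ℂ ℂ ℂ := FormalMultilinearSeries.ofScalars ℂ c with hp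
  have hpc : ∀ n, p.coeff n = c n := by
    intro n
    rw [hp]
    simp [FormalMultilinearSeries.coeff_ofScalars]
  set g : ℂ → ℂ := fun q => if q = 0 then c 0 else k with hg
  have hgp : HasFPowerSeriesAt g p 0 := by
    rw [hasFPowerSeriesAt_iff]
    have hball : Metric.ball (0 : ℂ) 1 ∈ 𝓝 (0 : ℂ) := Metric.ball_mem_nhds _ one_pos
    filter_upwards [hball] with z hz
    simp only [Metric.mem_ball, dist_zero_right] at hz
    simp only [hpc, smul_eq_mul, zero_add]
    by_cases h0 : z = 0
    · subst h0
      have h1 : HasSum (fun n : ℕ => (0 : ℂ) ^ n * c n) ((0 : ℂ) ^ 0 * c 0) := by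
        refine hasSum_single 0 ?_
        intro n hn
        rw [zero_pow hn, zero_mul]
      simpa [hg] using h1
    · have h1 := h z h0 hz
      have h2 : (fun n : ℕ => z ^ n * c n) = fun n : ℕ => c n * z ^ n := by
        funext n
        ring
      rw [h2]
      simpa [hg, h0] using h1
  have hcont : ContinuousAt g 0 := hgp.continuousAt
  have h0k : c 0 = k := by
    have h1 : Tendsto g (𝓝[≠] 0) (𝓝 (g 0)) := hcont.tendsto.mono_left nhdsWithin_le_nhds
    have h2 : Tendsto g (𝓝[≠] 0) (𝓝 k) := by
      refine (tendsto_const_nhds (x := k)).congr' ?_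
      filter_upwards [self_mem_nhdsWithin] with z hz
      have hz' : z ≠ 0 := hz
      simp [hg, hz']
    have h3 := tendsto_nhds_unique h1 h2
    simpa [hg] using h3
  have hgk : g = fun _ => k := by
    funext z
    by_cases hz : z = 0
    · simp [hg, hz, h0k]
    · simp [hg, hz]
  rw [hgk] at hgp
  have h3 := hgp.eq_formalMultilinearSeries (hasFPowerSeriesAt_const (𝕜 := ℂ) (c := k) (e := 0))
  have h4 : p.coeff m = 0 := by
    rw [h3]
    unfold FormalMultilinearSeries.coeff
    rw [constFormalMultilinearSeries_apply_of_nonzero hm]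
    rfl
  rw [← hpc m, h4]

/-- The sum of the powers of the `l`-th roots of unity. -/
private lemma root_sum (l : ℕ) (hl : 0 < l) (n : ℕ) :
    ∑ j ∈ Finset.range l, Complex.exp (2 * Real.pi * Complex.I * n * j / l) =
      if l ∣ n then (l : ℂ) else 0 := by
  have hl0 : (l : ℂ) ≠ 0 := by exact_mod_cast hl.ne'
  set w : ℂ := Complex.exp (2 * Real.pi * Complex.I * n / l) with hw
  have h1 : ∀ j : ℕ, Complex.exp (2 * Real.pi * Complex.I * n * j / l) = w ^ j := by
    intro j
    rw [hw, ← Complex.exp_nat_mul]
    congr 1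
    ring
  simp only [h1]
  split_ifs with hdvd
  · obtain ⟨t, rfl⟩ := hdvd
    have hw1 : w = 1 := by
      rw [hw, Complex.exp_eq_one_iff]
      refine ⟨t, ?_⟩
      push_cast
      field_simp
    rw [hw1]
    simp
  · have hw1 : w ≠ 1 := by
      intro h
      rw [hw, Complex.exp_eq_one_iff] at h
      obtain ⟨t, ht⟩ := h
      apply hdvd
      have hpi : (2 * Real.pi * Complex.I : ℂ) ≠ 0 := Complex.two_pi_I_ne_zero
      have h2 : (n : ℂ) = t * l := by
        field_simp at ht
        have h3 : (2 * Real.pi * Complex.I : ℂ) * n = (2 * Real.pi * Complex.I) * (t * l) := by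
          linear_combination (2 * Real.pi * Complex.I : ℂ) * ht
        exact mul_left_cancel₀ hpi h3
      have h3 : (n : ℤ) = t * l := by exact_mod_cast h2
      exact Int.natCast_dvd_natCast.mp ⟨t, by rw [h3]; ring⟩
    have hwl : w ^ l = 1 := by
      rw [hw, ← Complex.exp_nat_mul, Complex.exp_eq_one_iff]
      refine ⟨n, ?_⟩
      push_cast
      field_simp
    rw [geom_sum_eq hw1, hwl, sub_self, zero_div]

theorem hKRT : StKRT := by
  intro h1 N hN k f p hp H
  have hp0 : (p : ℂ) ≠ 0 := by exact_mod_cast hp.ne'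
  have hf : ∀ z : ℂ, 0 < z.im →
      HasSum (fun m : ℕ => fcK f m * Complex.exp (2 * Real.pi * Complex.I * m * z)) (fzK f z) :=
    fun z hz => (h1 N hN k f z hz).2.2.1
  have hfc0 : fcK f 0 = 0 := (h1 N hN k f Complex.I (by simp)).1
  set c : ℕ → ℂ := fun m => if p ∣ m then p * fcK f m else 0 with hc
  have hser : ∀ q : ℂ, q ≠ 0 → ‖q‖ < 1 → HasSum (fun m : ℕ => c m * q ^ m) 0 := by
    intro q hq0 hq1
    set z : ℂ := Complex.log q / (2 * Real.pi * Complex.I) with hz
    have hzq : Complex.exp (2 * Real.pi * Complex.I * z) = q := by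
      rw [hz, mul_div_cancel₀ _ Complex.two_pi_I_ne_zero, Complex.exp_log hq0]
    have hzim : 0 < z.im := by
      by_contra hcon
      push Not at hcon
      have h2 : ‖q‖ = Real.exp (-(2 * Real.pi * z.im)) := by
        rw [← hzq, Complex.norm_exp]
        congr 1
        simp [Complex.mul_re, Complex.mul_im]
      have h3 : (1 : ℝ) ≤ Real.exp (-(2 * Real.pi * z.im)) := by
        apply Real.one_le_exp
        have := Real.pi_pos
        nlinarith [mul_nonneg this.le (neg_nonneg.mpr hcon)]
      linarith
    have hexp : ∀ m : ℕ, Complex.exp (2 * Real.pi * Complex.I * m * z) = q ^ m := by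
      intro m
      rw [← hzq, ← Complex.exp_nat_mul]
      congr 1
      ring
    have h2 : ∀ j ∈ Finset.range p, HasSum (fun m : ℕ => fcK f m *
        Complex.exp (2 * Real.pi * Complex.I * m * (z + j / p))) (fzK f (z + j / p)) := by
      intro j _
      apply hf
      have h5 : ((j : ℂ) / p) = (((j : ℝ) / p : ℝ) : ℂ) := by push_cast; ring
      rw [h5, Complex.add_im, Complex.ofReal_im, add_zero]
      exact hzim
    have h3 := hasSum_sum h2
    rw [H z hzim] at h3
    have h6 : (fun m : ℕ => c m * q ^ m) = fun m : ℕ => ∑ j ∈ Finset.range p, fcK f m *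
        Complex.exp (2 * Real.pi * Complex.I * m * (z + j / p)) := by
      funext m
      have h5 : ∀ j : ℕ, Complex.exp (2 * Real.pi * Complex.I * m * (z + j / p)) =
          q ^ m * Complex.exp (2 * Real.pi * Complex.I * m * j / p) := by
        intro j
        rw [← hexp, ← Complex.exp_add]
        congr 1
        ring
      simp only [h5]
      rw [← Finset.mul_sum, ← Finset.mul_sum, root_sum p hp m]
      simp only [hc]
      split_ifs with hd
      · ring
      · ring
    rw [h6]
    exact h3
  have hcz := coeff_zero_of_const c 0 hser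
  intro m
  rcases Nat.eq_zero_or_pos m with hm | hm
  · subst hm
    simpa using hfc0
  · have h2 := hcz (p * m) (Nat.mul_pos hp hm).ne'
    simp only [hc, dvd_mul_right, if_true] at h2
    exact (mul_eq_zero.1 h2).resolve_left hp0

end Pool.Agent.Helper68.TK
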